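import Mathlib

/-!
# The weak Shanks conjecture on the bidisk fails

`f = (2 + z₁ z₂)² (3 - 2 z₁) (3 - 2 z₂)` has no zeros on the closed bidisk, and its optimal
polynomial approximant `q₂` (index `n = 2`, that is in the span of `1, z₁, z₂`) in `H²(𝔻²)` is a
multiple of `8205 + 4134 (z₁ + z₂)`, which vanishes at `z₁ = z₂ = - 8205 / 8268`.
-/

set_option autoImplicit false

open MvPolynomial

namespace Pool.Agent.Results.MP_52e642_an.WeakShanksFails

/-- The position (counted from `0`) of the monomial `z₁ ^ j z₂ ^ k` in the degree-lexicographic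
ordering `1, z₁, z₂, z₁², z₁ z₂, z₂², z₁³, …`: first by the total degree `j + k`, and within a total
degree by decreasing powers of `z₁`. -/
def position (m : Fin 2 →₀ ℕ) : ℕ := (m 0 + m 1) * (m 0 + m 1 + 1) / 2 + m 1

/-- `𝒫_n`: the span of the first `n + 1` monomials. -/
noncomputable def P (n : ℕ) : Submodule ℂ (MvPolynomial (Fin 2) ℂ) :=
  Submodule.span ℂ {p | ∃ m : Fin 2 →₀ ℕ, position m ≤ n ∧ p = monomial m 1}

/-- The square of the norm of the polynomial `g = ∑ a_{j,k} z₁ ^ j z₂ ^ k` in `H²(𝔻²)`, that is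
`∑ |a_{j,k}|²`. -/
noncomputable def hardyNormSq (g : MvPolynomial (Fin 2) ℂ) : ℝ :=
  ∑ m ∈ g.support, ‖g.coeff m‖ ^ 2

/-- `q` is the `n`-th optimal polynomial approximant of `1 / f` in `H²(𝔻²)`: the unique minimiser of
`‖p f - 1‖` over `p ∈ 𝒫_n`. -/
def IsOPA (n : ℕ) (f q : MvPolynomial (Fin 2) ℂ) : Prop :=
  q ∈ P n ∧ ∀ p ∈ P n, p ≠ q → hardyNormSq (q * f - 1) < hardyNormSq (p * f - 1)

/-! ### Auxiliary lemmas -/

/-- the exponent `(i, j)` -/
noncomputable def ex (i j : ℕ) : Fin 2 →₀ ℕ := Finsupp.single 0 i + Finsupp.single 1 j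

lemma ex_zero (i j : ℕ) : ex i j 0 = i := by simp [ex]

lemma ex_one (i j : ℕ) : ex i j 1 = j := by simp [ex]

lemma ex_self (m : Fin 2 →₀ ℕ) : ex (m 0) (m 1) = m := by
  ext t
  fin_cases t
  · exact ex_zero _ _
  · exact ex_one _ _

lemma ex_inj {i j k l : ℕ} (h : ex i j = ex k l) : i = k ∧ j = l := by
  have h0 := congrArg (fun m => m 0) h
  have h1 := congrArg (fun m => m 1) h
  simp only [ex_zero, ex_one] at h0 h1
  exact ⟨h0, h1⟩

lemma mono_eq (i j : ℕ) (a : ℂ) :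
    (C a * X 0 ^ i * X 1 ^ j : MvPolynomial (Fin 2) ℂ) = monomial (ex i j) a := by
  rw [ex, X_pow_eq_monomial, X_pow_eq_monomial, C_mul_monomial, monomial_mul]
  simp

/-- the norm of an explicitly given polynomial -/
lemma norm_sum (c : Fin 5 → Fin 5 → ℂ) :
    hardyNormSq (∑ i : Fin 5, ∑ j : Fin 5,
      (C (c i j) * X 0 ^ (i : ℕ) * X 1 ^ (j : ℕ) : MvPolynomial (Fin 2) ℂ)) =
      ∑ i : Fin 5, ∑ j : Fin 5, ‖c i j‖ ^ 2 := by
  classical
  simp only [mono_eq]
  set g : MvPolynomial (Fin 2) ℂ := ∑ i : Fin 5, ∑ j : Fin 5, monomial (ex i j) (c i j) with hg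
  have hco : ∀ i j : Fin 5, g.coeff (ex i j) = c i j := by
    intro i j
    rw [hg]
    simp only [coeff_sum, coeff_monomial]
    rw [Finset.sum_eq_single i, Finset.sum_eq_single j]
    · simp
    · intro b _ hb
      rw [if_neg]
      intro h
      exact hb (Fin.ext (ex_inj h).2)
    · intro h; exact absurd (Finset.mem_univ _) h
    · intro b _ hb
      apply Finset.sum_eq_zero
      intro d _
      rw [if_neg]
      intro h
      exact hb (Fin.ext (ex_inj h).1)
    · intro h; exact absurd (Finset.mem_univ _) h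
  set S : Finset (Fin 2 →₀ ℕ) := Finset.univ.image (fun ij : Fin 5 × Fin 5 => ex ij.1 ij.2) with hS
  have hsub : g.support ⊆ S := by
    intro m hm
    rw [mem_support_iff] at hm
    by_contra hcon
    apply hm
    rw [hg]
    simp only [coeff_sum, coeff_monomial]
    apply Finset.sum_eq_zero
    intro i _
    apply Finset.sum_eq_zero
    intro j _
    rw [if_neg]
    intro h
    apply hcon
    rw [hS, Finset.mem_image]
    exact ⟨(i, j), Finset.mem_univ _, h⟩
  unfold hardyNormSq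
  rw [Finset.sum_subset hsub (fun m _ hm => by
    rw [notMem_support_iff] at hm
    rw [hm]; simp), hS, Finset.sum_image, ← Finset.univ_product_univ, Finset.sum_product]
  · exact Finset.sum_congr rfl fun i _ => Finset.sum_congr rfl fun j _ => by rw [hco]
  · intro a _ b _ h
    have h' := ex_inj h
    exact Prod.ext (Fin.ext h'.1) (Fin.ext h'.2)

/-- the position is at most `2` exactly for the monomials `1, z₁, z₂` -/
lemma position_le (m : Fin 2 →₀ ℕ) (h : position m ≤ 2) :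
    m = ex 0 0 ∨ m = ex 1 0 ∨ m = ex 0 1 := by
  have hm := ex_self m
  unfold position at h
  generalize m 0 = a at *
  generalize m 1 = b at *
  have hb : b ≤ 2 := by omega
  have ha : a + b ≤ 1 := by
    by_contra hcon
    have h1 : 2 ≤ a + b := by omega
    have h2 : 2 * 3 ≤ (a + b) * (a + b + 1) := Nat.mul_le_mul h1 (by omega)
    have h3 : 3 ≤ (a + b) * (a + b + 1) / 2 := by omega
    omega
  rcases Nat.eq_zero_or_pos a with h0 | h0
  · rcases Nat.eq_zero_or_pos b with h1 | h1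
    · left; rw [← hm, h0, h1]
    · right; right; rw [← hm, h0, show b = 1 by omega]
  · right; left; rw [← hm, show a = 1 by omega, show b = 0 by omega]

/-- the elements of `𝒫₂` -/
lemma mem_P2 (p : MvPolynomial (Fin 2) ℂ) (hp : p ∈ P 2) :
    ∃ a b c : ℂ, p = C a + C b * X 0 + C c * X 1 := by
  unfold P at hp
  induction hp using Submodule.span_induction with
  | mem x hx =>
    obtain ⟨m, hm, rfl⟩ := hx
    rcases position_le m hm with h | h | h
    · refine ⟨1, 0, 0, ?_⟩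
      rw [h, ← mono_eq]; simp
    · refine ⟨0, 1, 0, ?_⟩
      rw [h, ← mono_eq]; simp
    · refine ⟨0, 0, 1, ?_⟩
      rw [h, ← mono_eq]; simp
  | zero => exact ⟨0, 0, 0, by simp⟩
  | add x y _ _ hx hy =>
    obtain ⟨a, b, c, rfl⟩ := hx
    obtain ⟨a', b', c', rfl⟩ := hy
    exact ⟨a + a', b + b', c + c', by simp only [map_add]; ring⟩
  | smul t x _ hx =>
    obtain ⟨a, b, c, rfl⟩ := hx
    exact ⟨t * a, t * b, t * c, by simp only [map_mul, smul_eq_C_mul]; ring⟩

lemma P2_mem (a b c : ℂ) : (C a + C b * X 0 + C c * X 1 : MvPolynomial (Fin 2) ℂ) ∈ P 2 := by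
  have key : ∀ (i j : ℕ) (t : ℂ), position (ex i j) ≤ 2 →
      (C t * X 0 ^ i * X 1 ^ j : MvPolynomial (Fin 2) ℂ) ∈ P 2 := by
    intro i j t h
    have h1 : (C t * X 0 ^ i * X 1 ^ j : MvPolynomial (Fin 2) ℂ) = t • monomial (ex i j) 1 := by
      rw [mono_eq, smul_monomial]; simp
    rw [h1]
    exact Submodule.smul_mem _ _ (Submodule.subset_span ⟨ex i j, h, rfl⟩)
  have h0 := key 0 0 a (by simp [position, ex_zero, ex_one])
  have h1 := key 1 0 b (by simp [position, ex_zero, ex_one])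
  have h2 := key 0 1 c (by simp [position, ex_zero, ex_one])
  have h3 := Submodule.add_mem _ (Submodule.add_mem _ h0 h1) h2
  simpa using h3

/-- The polynomial `f`. -/
noncomputable def f : MvPolynomial (Fin 2) ℂ :=
  (2 + X 0 * X 1) ^ 2 * (3 - 2 * X 0) * (3 - 2 * X 1)

/-- the coefficients of `(a + b z₁ + c z₂) f - 1` -/
noncomputable def co (a b c : ℂ) : Fin 5 → Fin 5 → ℂ :=
  ![![36 * a - 1, 36 * c - 24 * a, -24 * c, 0, 0],
    ![36 * b - 24 * a, 52 * a - 24 * b - 24 * c, 52 * c - 24 * a, -24 * c, 0],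
    ![-24 * b, 52 * b - 24 * a, 25 * a - 24 * b - 24 * c, 25 * c - 6 * a, -6 * c],
    ![0, -24 * b, 25 * b - 6 * a, 4 * a - 6 * b - 6 * c, 4 * c],
    ![0, 0, -6 * b, 4 * b, 0]]

lemma expand (a b c : ℂ) : (C a + C b * X 0 + C c * X 1 : MvPolynomial (Fin 2) ℂ) * f - 1 =
    ∑ i : Fin 5, ∑ j : Fin 5, C (co a b c i j) * X 0 ^ (i : ℕ) * X 1 ^ (j : ℕ) := by
  simp only [Fin.sum_univ_five, co, f]
  simp [map_sub, map_mul, map_ofNat]
  ring

/-- the value of the functional that `q₂` minimises -/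
lemma energy (a b c : ℂ) :
    hardyNormSq ((C a + C b * X 0 + C c * X 1 : MvPolynomial (Fin 2) ℂ) * f - 1) =
      7017 * (a.re ^ 2 + b.re ^ 2 + c.re ^ 2) - 8268 * a.re * (b.re + c.re)
        + 2376 * b.re * c.re - 72 * a.re + 1
      + (7017 * (a.im ^ 2 + b.im ^ 2 + c.im ^ 2) - 8268 * a.im * (b.im + c.im)
        + 2376 * b.im * c.im) := by
  rw [expand, norm_sum]
  simp only [Fin.sum_univ_five, co, Complex.sq_norm, Complex.normSq_apply]
  simp
  ring

/-- the constant coefficient of `q₂` -/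
noncomputable def a₀ : ℝ := 32820 / 2599397

/-- the coefficient of `z₁` and `z₂` in `q₂` -/
noncomputable def b₀ : ℝ := 16536 / 2599397

/-- the approximant `q₂` -/
noncomputable def q : MvPolynomial (Fin 2) ℂ := C (a₀ : ℂ) + C (b₀ : ℂ) * X 0 + C (b₀ : ℂ) * X 1

lemma form_zero (a s d a' s' d' : ℝ)
    (h : 7017 * a ^ 2 - 8268 * a * s + (8205 / 2) * s ^ 2 + (5829 / 2) * d ^ 2 +
      (7017 * a' ^ 2 - 8268 * a' * s' + (8205 / 2) * s' ^ 2 + (5829 / 2) * d' ^ 2) ≤ 0) :
    a = 0 ∧ s = 0 ∧ d = 0 ∧ a' = 0 ∧ s' = 0 ∧ d' = 0 := by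
  have key : 1000 * (a ^ 2 + s ^ 2 + d ^ 2 + a' ^ 2 + s' ^ 2 + d' ^ 2) ≤ 0 := by
    nlinarith [sq_nonneg (6017 * a - 4134 * s), sq_nonneg (6017 * a' - 4134 * s'), sq_nonneg s,
      sq_nonneg s', sq_nonneg d, sq_nonneg d']
  have ha := sq_nonneg a
  have hs := sq_nonneg s
  have hd := sq_nonneg d
  have ha' := sq_nonneg a'
  have hs' := sq_nonneg s'
  have hd' := sq_nonneg d'
  refine ⟨?_, ?_, ?_, ?_, ?_, ?_⟩ <;> exact pow_eq_zero_iff two_ne_zero |>.1 (by linarith)

lemma isOPA : IsOPA 2 f q := by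
  refine ⟨P2_mem _ _ _, fun p hp hne => ?_⟩
  obtain ⟨a, b, c, rfl⟩ := mem_P2 p hp
  rw [energy, q, energy]
  simp only [Complex.ofReal_re, Complex.ofReal_im]
  by_contra hcon
  apply hne
  have h1 : (7017 * (a.re - a₀) ^ 2 - 8268 * (a.re - a₀) * (b.re + c.re - 2 * b₀)
      + (8205 / 2) * (b.re + c.re - 2 * b₀) ^ 2 + (5829 / 2) * (b.re - c.re) ^ 2)
      + (7017 * a.im ^ 2 - 8268 * a.im * (b.im + c.im)
      + (8205 / 2) * (b.im + c.im) ^ 2 + (5829 / 2) * (b.im - c.im) ^ 2) ≤ 0 := by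
    rw [not_lt] at hcon
    unfold a₀ b₀ at *
    nlinarith
  obtain ⟨h2, h3, h4, h5, h6, h7⟩ := form_zero _ _ _ _ _ _ h1
  have ea : a = (a₀ : ℂ) := Complex.ext (by simpa using sub_eq_zero.1 h2) (by simpa using h5)
  have eb : b = (b₀ : ℂ) := Complex.ext (by simp; linarith) (by simp; linarith)
  have ec : c = (b₀ : ℂ) := Complex.ext (by simp; linarith) (by simp; linarith)
  rw [ea, eb, ec, q]

lemma f_ne_zero (z : Fin 2 → ℂ) (hz : ∀ i, ‖z i‖ ≤ 1) : eval z f ≠ 0 := by
  have h0 := hz 0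
  have h1 := hz 1
  have e : eval z f = (2 + z 0 * z 1) ^ 2 * (3 - 2 * z 0) * (3 - 2 * z 1) := by
    simp [f]
  rw [e]
  have a1 : 2 + z 0 * z 1 ≠ 0 := by
    intro h
    have h2 : z 0 * z 1 = -2 := by linear_combination h
    have h3 : ‖z 0‖ * ‖z 1‖ = 2 := by rw [← norm_mul, h2]; simp
    have h4 : ‖z 0‖ * ‖z 1‖ ≤ 1 * 1 := mul_le_mul h0 h1 (norm_nonneg _) zero_le_one
    linarith
  have a2 : ∀ w : ℂ, ‖w‖ ≤ 1 → 3 - 2 * w ≠ 0 := by
    intro w hw h
    have h2 : 2 * w = 3 := by linear_combination -h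
    have h3 : 2 * ‖w‖ = 3 := by
      have := congrArg norm h2
      rw [norm_mul] at this
      simpa using this
    linarith
  exact mul_ne_zero (mul_ne_zero (pow_ne_zero _ a1) (a2 _ h0)) (a2 _ h1)

/-- **The weak Shanks conjecture fails on the bidisk.** There are a polynomial `f` without zeros on
the closed bidisk, an index `n` and a point of the open bidisk at which the `n`-th optimal polynomial
approximant of `1 / f` in `H²(𝔻²)` vanishes. -/
theorem result : ∃ f : MvPolynomial (Fin 2) ℂ,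
    (∀ z : Fin 2 → ℂ, (∀ i, ‖z i‖ ≤ 1) → eval z f ≠ 0) ∧
    ∃ (n : ℕ) (q : MvPolynomial (Fin 2) ℂ), IsOPA n f q ∧
      ∃ z : Fin 2 → ℂ, (∀ i, ‖z i‖ < 1) ∧ eval z q = 0 := by
  refine ⟨f, f_ne_zero, 2, q, isOPA, fun _ => ((-(32820 / 33072) : ℝ) : ℂ), ?_, ?_⟩
  · intro i
    rw [Complex.norm_real, Real.norm_eq_abs, abs_neg, abs_of_pos (by norm_num)]
    norm_num
  · simp only [q, map_add, map_mul, eval_C, eval_X]
    norm_cast
    unfold a₀ b₀
    norm_num

end Pool.Agent.Results.MP_52e642_an.WeakShanksFails
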